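import Pool.Agent.Q293.PolyChain

/-!
# A reversible recurrent walk whose directed polymer has a positive `L²` critical value

The walk projects onto the simple random walk of the square lattice; the fibre over `z` has
`2^(|z₁|+|z₂|)` points and each step chooses the point of the new fibre uniformly. It is reversible
with `π = 1 / (size of the fibre)` and recurrent. Two independent copies meet only if they choose
the same point of a common fibre, and the expected number of meetings is bounded.
-/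

set_option autoImplicit false

open MeasureTheory

namespace Pool.Agent.Results.MP_6abe48_pr.ReversibleRecurrent

/-- The law of `S_n` under `P_x`, for the Markov chain with transition laws `P`. -/
noncomputable def law {V : Type} (P : V → PMF V) : ℕ → V → PMF V
  | 0, x => PMF.pure x
  | n + 1, x => (P x).bind (law P n)

/-- The law of `(S_1, ..., S_n)` under `P_x`, for the Markov chain with transition laws `P`. -/
noncomputable def pathLaw {V : Type} (P : V → PMF V) : (n : ℕ) → V → PMF (Fin n → V)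
  | 0, _ => PMF.pure Fin.elim0
  | n + 1, x => (P x).bind fun y => (pathLaw P n y).map (Fin.cons y)

/-- `P` defines a nearest-neighbour Markov chain on the connected graph `G` which is irreducible
and has finitely many possible transitions from each vertex. -/
structure IsWalk {V : Type} (G : SimpleGraph V) (P : V → PMF V) : Prop where
  connected : G.Connected
  nearest : ∀ x y, P x y ≠ 0 → G.Adj x y
  irreducible : ∀ x y, ∃ n, law P n x y ≠ 0
  finite : ∀ x, {y | P x y ≠ 0}.Finite

/-- Recurrence: the Green function is infinite. -/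
def Recurrent {V : Type} (P : V → PMF V) : Prop := ∀ x, ∑' n, law P n x x = ⊤

/-- Reversibility. -/
def Reversible {V : Type} (P : V → PMF V) : Prop :=
  ∃ π : V → ENNReal, (∀ x, π x ≠ 0 ∧ π x ≠ ⊤) ∧ ∀ x y, π x * P x y = π y * P y x

/-- The assumptions on the law `ν` of one environment variable: mean zero, variance one and finite
exponential moments. -/
structure IsEnvironmentLaw (ν : Measure ℝ) : Prop where
  prob : IsProbabilityMeasure ν
  integrable : Integrable (fun t : ℝ => t) ν
  mean : ∫ t, t ∂ν = 0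
  variance : ∫ t, t ^ 2 ∂ν = 1
  exp : ∀ β : ℝ, 0 < β → Integrable (fun t => Real.exp (β * t)) ν

/-- The law of the environment: `ω i x` are i.i.d. with law `ν` (`ω i x` is the variable attached to
the time `i + 1` and the vertex `x`). -/
noncomputable def env (V : Type) (ν : Measure ℝ) : Measure (ℕ → V → ℝ) :=
  Measure.infinitePi (fun _ : ℕ => Measure.infinitePi (fun _ : V => ν))

/-- `Λ(β) = log E[exp(β ω)]`. -/
noncomputable def Lam (ν : Measure ℝ) (β : ℝ) : ℝ := Real.log (∫ t, Real.exp (β * t) ∂ν)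

/-- The partition function `Z_n(x) = E_x[exp(β ∑_{i=1}^n ω(i, S_i))]`. -/
noncomputable def Z {V : Type} (P : V → PMF V) (β : ℝ) (ω : ℕ → V → ℝ) (n : ℕ) (x : V) : ENNReal :=
  ∑' γ : Fin n → V, pathLaw P n x γ *
    ENNReal.ofReal (Real.exp (β * ∑ i : Fin n, ω (i : ℕ) (γ i)))

/-- The normalised partition function `W_n(x, β) = Z_n(x) exp(-n Λ(β))`. -/
noncomputable def W {V : Type} (P : V → PMF V) (ν : Measure ℝ) (β : ℝ) (ω : ℕ → V → ℝ) (n : ℕ)
    (x : V) : ENNReal :=
  Z P β ω n x * ENNReal.ofReal (Real.exp (-(n * Lam ν β)))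

/-- The `L²` critical value `β₂ = sup {β ≥ 0 : sup_n E[W_n(x, β)²] < ∞}`. -/
noncomputable def beta2 {V : Type} (P : V → PMF V) (ν : Measure ℝ) (x : V) : EReal :=
  sSup {b : EReal | ∃ β : ℝ, 0 ≤ β ∧ b = β ∧ ⨆ n, ∫⁻ ω, W P ν β ω n x ^ 2 ∂(env V ν) < ⊤}

section Helpers

open Q293.PolyChain Q293.PolyBase Q293.Polymer

theorem adj_ne (x y : V) (h : P x y ≠ 0) : ∃ e, x.1 + dir e = y.1 := by
  by_contra hcon
  push Not at hcon
  apply h
  rw [P_apply]
  have : ∑ e, (1 / 4 : ENNReal) * (if x.1 + dir e = y.1 then 1 else 0) = 0 := by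
    apply Finset.sum_eq_zero
    intro e _
    rw [if_neg (hcon e), mul_zero]
  rw [this, zero_mul]

theorem ne_adj (x y : V) (e : Fin 4) (h : x.1 + dir e = y.1) : P x y ≠ 0 := by
  rw [P_apply]
  apply mul_ne_zero
  · intro h0
    rw [Finset.sum_eq_zero_iff] at h0
    have := h0 e (Finset.mem_univ e)
    rw [if_pos h, mul_one] at this
    simp at this
  · exact ENNReal.inv_ne_zero.2 (m_ne_top _)

theorem dir_ne_zero (e : Fin 4) : dir e ≠ 0 := by fin_cases e <;> decide

/-- the underlying graph -/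
def Gph : SimpleGraph V where
  Adj x y := ∃ e, x.1 + dir e = y.1
  symm := ⟨by
    rintro x y ⟨e, he⟩
    refine ⟨opp e, ?_⟩
    rw [dir_opp, ← he]; abel⟩
  loopless := ⟨by
    rintro x ⟨e, he⟩
    exact dir_ne_zero e (by simpa using he)⟩

theorem law_eq : ∀ (n : ℕ) (x : V), law P n x = Q293.PolyChain.law n x := by
  intro n
  induction n with
  | zero => intro x; rfl
  | succ n ih =>
    intro x
    rw [law, Q293.PolyChain.law]
    congr 1
    funext y
    exact ih y

theorem reach_step (x y z : V) (n : ℕ) (h : law P n x y ≠ 0) (hyz : P y z ≠ 0) :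
    law P (n + 1) x z ≠ 0 := by
  induction n generalizing x with
  | zero =>
    have hxy : y = x := by
      by_contra hne
      exact h (by rw [law, PMF.pure_apply, if_neg hne])
    subst hxy
    rw [law, ← PMF.mem_support_iff, PMF.mem_support_bind_iff]
    exact ⟨z, (PMF.mem_support_iff _ _).2 hyz, by rw [law, PMF.mem_support_pure_iff]⟩
  | succ n ih =>
    rw [law, ← PMF.mem_support_iff, PMF.mem_support_bind_iff] at h
    obtain ⟨w, hw, hwy⟩ := h
    rw [law, ← PMF.mem_support_iff, PMF.mem_support_bind_iff]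
    exact ⟨w, hw, (PMF.mem_support_iff _ _).2 (ih w ((PMF.mem_support_iff _ _).1 hwy))⟩

/-- the base points all of whose fibre can be reached -/
def Rch (x : V) (w : ℤ × ℤ) : Prop := ∀ j : Fin (m w), ∃ n, law P n x ⟨w, j⟩ ≠ 0

theorem rch_add (x : V) (w : ℤ × ℤ) (h : Rch x w) (e : Fin 4) : Rch x (w + dir e) := by
  intro j
  obtain ⟨n, hn⟩ := h 0
  exact ⟨n + 1, reach_step x ⟨w, 0⟩ ⟨w + dir e, j⟩ n hn (ne_adj _ _ e rfl)⟩

theorem rch_base (x : V) : Rch x x.1 := by
  have h1 : Rch x (x.1 + dir 0) := by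
    intro j
    refine ⟨0 + 1, reach_step x x ⟨x.1 + dir 0, j⟩ 0 ?_ (ne_adj _ _ 0 rfl)⟩
    rw [law, PMF.pure_apply, if_pos rfl]; exact one_ne_zero
  have h2 := rch_add x _ h1 1
  have h3 : x.1 + dir 0 + dir 1 = x.1 := by
    have : dir 0 + dir 1 = 0 := by decide
    rw [add_assoc, this, add_zero]
  rwa [h3] at h2

theorem rch_all (x : V) (w : ℤ × ℤ) : Rch x w := by
  have h1 : ∀ a : ℤ, Rch x (x.1 + (a, 0)) := by
    intro a
    induction a using Int.induction_on with
    | zero =>
      have e : x.1 + ((0 : ℤ), (0 : ℤ)) = x.1 := by ext <;> simp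
      rw [e]; exact rch_base x
    | succ i ih =>
      have := rch_add x _ ih 0
      have e : x.1 + ((i : ℤ), 0) + dir 0 = x.1 + ((i : ℤ) + 1, 0) := by
        ext <;> simp [dir, add_assoc]
      rwa [e] at this
    | pred i ih =>
      have := rch_add x _ ih 1
      have e : x.1 + (-(i : ℤ), 0) + dir 1 = x.1 + (-(i : ℤ) - 1, 0) := by
        ext <;> simp [dir, add_assoc, sub_eq_add_neg]
      rwa [e] at this
  have h2 : ∀ a b : ℤ, Rch x (x.1 + (a, b)) := by
    intro a b
    induction b using Int.induction_on with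
    | zero => exact h1 a
    | succ i ih =>
      have := rch_add x _ ih 2
      have e : x.1 + (a, (i : ℤ)) + dir 2 = x.1 + (a, (i : ℤ) + 1) := by
        ext <;> simp [dir, add_assoc]
      rwa [e] at this
    | pred i ih =>
      have := rch_add x _ ih 3
      have e : x.1 + (a, -(i : ℤ)) + dir 3 = x.1 + (a, -(i : ℤ) - 1) := by
        ext <;> simp [dir, add_assoc, sub_eq_add_neg]
      rwa [e] at this
  have h3 := h2 (w.1 - x.1.1) (w.2 - x.1.2)
  have e : x.1 + (w.1 - x.1.1, w.2 - x.1.2) = w := by ext <;> simp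
  rwa [e] at h3

theorem reachable_of_law (x y : V) (n : ℕ) (h : law P n x y ≠ 0) : Gph.Reachable x y := by
  induction n generalizing x with
  | zero =>
    have hxy : y = x := by
      by_contra hne
      exact h (by rw [law, PMF.pure_apply, if_neg hne])
    rw [hxy]
  | succ n ih =>
    rw [law, ← PMF.mem_support_iff, PMF.mem_support_bind_iff] at h
    obtain ⟨w, hw, hwy⟩ := h
    have h1 : Gph.Adj x w := adj_ne x w ((PMF.mem_support_iff _ _).1 hw)
    exact h1.reachable.trans (ih w ((PMF.mem_support_iff _ _).1 hwy))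

theorem isWalk : IsWalk Gph P where
  connected := by
    rw [SimpleGraph.connected_iff]
    refine ⟨fun x y => ?_, ⟨⟨(0, 0), 0⟩⟩⟩
    obtain ⟨n, hn⟩ := rch_all x y.1 y.2
    exact reachable_of_law x y n hn
  nearest := adj_ne
  irreducible x y := rch_all x y.1 y.2
  finite x := by
    have h1 : {y | P x y ≠ 0} ⊆ ⋃ e : Fin 4, Set.range fun i : Fin (m (x.1 + dir e)) =>
        (⟨x.1 + dir e, i⟩ : V) := by
      intro y hy
      obtain ⟨e, he⟩ := adj_ne x y hy
      refine Set.mem_iUnion.2 ⟨e, ?_⟩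
      obtain ⟨w, j⟩ := y
      simp only at he
      subst he
      exact ⟨j, rfl⟩
    exact (Set.finite_iUnion fun e => Set.finite_range _).subset h1

theorem pathLaw_eq : ∀ (n : ℕ) (x : V), pathLaw P n x = Q293.Polymer.pathLaw P n x := by
  intro n
  induction n with
  | zero => intro x; rfl
  | succ n ih =>
    intro x
    rw [pathLaw, Q293.Polymer.pathLaw]
    congr 1
    funext y
    rw [ih y]

theorem W_eq (ν : Measure ℝ) (β : ℝ) (ω : ℕ → V → ℝ) (n : ℕ) (x : V) :
    W P ν β ω n x = Q293.Polymer.W P ν β ω n x := by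
  unfold W Z Q293.Polymer.W Q293.Polymer.Z
  rw [pathLaw_eq]
  rfl

theorem moment (ν : Measure ℝ) (hν : IsEnvironmentLaw ν) :
    ∃ β : ℝ, 0 < β ∧ ∀ x : V, ⨆ n, ∫⁻ ω, W P ν β ω n x ^ 2 ∂(env V ν) < ⊤ := by
  have hν' : GoodLaw ν := ⟨hν.prob, hν.integrable, hν.mean, hν.exp⟩
  have := hν.prob
  have hk : (1 + kap) ≠ ⊤ := ENNReal.add_ne_top.2 ⟨ENNReal.one_ne_top, kap_ne_top⟩
  set δ : ℝ := 1 / (1 + kap).toReal with hδ
  have hpos : 0 < (1 + kap).toReal := ENNReal.toReal_pos (by simp) hk
  have hδ0 : 0 < δ := by positivity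
  obtain ⟨β, hβ, hβ2⟩ := exists_beta hν' δ hδ0
  refine ⟨β, hβ, fun x => ?_⟩
  have hsuper := supersolution (cc ν β) (ENNReal.ofReal δ) (by
      rw [← ENNReal.ofReal_toReal hk, ← ENNReal.ofReal_mul hδ0.le, hδ, one_div,
        inv_mul_cancel₀ hpos.ne', ENNReal.ofReal_one])
    (fun y y' h => (cc_ne hν' β hβ y y' h).le)
    (fun y => (cc_eq hν' β hβ y).trans (by
      rw [← ENNReal.ofReal_one, ← ENNReal.ofReal_add zero_le_one hδ0.le]
      exact ENNReal.ofReal_le_ofReal hβ2))
  have hM := M_le P ν β Hs (fun x x' => by unfold Hs; exact le_self_add) hsuper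
  refine lt_of_le_of_lt (iSup_le fun n => ?_) (lt_top_iff_ne_top.2 hk)
  calc ∫⁻ ω, W P ν β ω n x ^ 2 ∂(env V ν) = M P ν β n x x := by
        unfold M
        apply lintegral_congr
        intro ω
        rw [W_eq, sq]
    _ ≤ Hs x x := hM n x x
    _ ≤ 1 + kap := by unfold Hs; gcongr; exact Gr_le _ _

end Helpers

/-- There are a countably infinite connected graph `G` and a nearest-neighbour irreducible Markov
chain `P` on it, with finitely many possible transitions from each vertex, which is recurrent and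
reversible, and such that for every environment law the `L²` critical value is positive (whatever
the starting point); in particular the normalised partition functions are bounded in `L²` for some
`β > 0`. -/
theorem result : ∃ (V : Type) (_ : Countable V) (_ : Infinite V) (G : SimpleGraph V)
    (P : V → PMF V), IsWalk G P ∧ Recurrent P ∧ Reversible P ∧
      ∀ ν : Measure ℝ, IsEnvironmentLaw ν →
        (∀ x, 0 < beta2 P ν x) ∧
        ∃ β : ℝ, 0 < β ∧ ∀ x, ⨆ n, ∫⁻ ω, W P ν β ω n x ^ 2 ∂(env V ν) < ⊤ := by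
  refine ⟨Q293.PolyChain.V, inferInstance, ?_, Gph, Q293.PolyChain.P, isWalk, ?_, ?_, ?_⟩
  · exact Infinite.of_injective (fun z : ℤ × ℤ => (⟨z, 0⟩ : Q293.PolyChain.V)) fun a b h =>
      congrArg Sigma.fst h
  · intro x
    simp only [law_eq]
    exact Q293.PolyChain.recurrent x
  · refine ⟨Q293.PolyChain.pi, fun x => ⟨?_, ?_⟩, Q293.PolyChain.reversible⟩
    · exact ENNReal.inv_ne_zero.2 (Q293.PolyChain.m_ne_top _)
    · exact ENNReal.inv_ne_top.2 (Q293.PolyChain.m_ne_zero _)
  · intro ν hν
    obtain ⟨β, hβ, h⟩ := moment ν hν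
    refine ⟨fun x => ?_, β, hβ, h⟩
    unfold beta2
    have h1 : (β : EReal) ≤ sSup {b : EReal | ∃ β : ℝ, 0 ≤ β ∧ b = β ∧
        ⨆ n, ∫⁻ ω, W Q293.PolyChain.P ν β ω n x ^ 2 ∂(env Q293.PolyChain.V ν) < ⊤} :=
      le_sSup ⟨β, hβ.le, rfl, h x⟩
    exact lt_of_lt_of_le (EReal.coe_pos.2 hβ) h1

end Pool.Agent.Results.MP_6abe48_pr.ReversibleRecurrent
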